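import Pool.Agent.Y916.HStm
import Pool.Agent.H667R3.W4

/-! Y916/H-QP: all points with a given value of `℘`, and the values of `ζ` at them. -/

set_option autoImplicit false

namespace Pool.Agent.Y153.HE

open Pool.Agent.Y916.Hy
open scoped PeriodPair

theorem zeta_eq (L : PeriodPair) (z : ℂ) : zeta L z = H667R3.zeta L z := rfl

theorem eta_comb (L : PeriodPair) (m n : ℤ) :
    H667R3.eta L (m * L.ω₁ + n * L.ω₂) = m * H667R3.eta L L.ω₁ + n * H667R3.eta L L.ω₂ := by
  rw [H667R3.eta_add L (H667R3.intCast_mul_mem L L.ω₁_mem_lattice m)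
    (H667R3.intCast_mul_mem L L.ω₂_mem_lattice n), H667R3.eta_zsmul L L.ω₁_mem_lattice,
    H667R3.eta_zsmul L L.ω₂_mem_lattice]

theorem t_qp : S_qp := by
  intro L
  refine ⟨H667R3.eta L L.ω₁, H667R3.eta L L.ω₂, fun s p hs hp h => ?_⟩
  rcases (H667R3.wp_eq_iff L hp hs).1 h with h1 | h1
  · obtain ⟨m, n, e⟩ := PeriodPair.mem_lattice.1 h1
    have hs' : -s ∉ L.lattice := fun h2 => hs (by simpa using neg_mem h2)
    have hp' : p = -s + (m * L.ω₁ + n * L.ω₂) := by rw [e]; ring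
    refine ⟨-1, m, n, Or.inr rfl, ?_, ?_⟩
    · rw [hp']; push_cast; ring
    · rw [zeta_eq, zeta_eq, hp', H667R3.zeta_add_coe L hs' (by rw [e]; exact h1), H667R3.zeta_neg,
        eta_comb]
      push_cast
      ring
  · obtain ⟨m, n, e⟩ := PeriodPair.mem_lattice.1 h1
    have hp' : p = s + (m * L.ω₁ + n * L.ω₂) := by rw [e]; ring
    refine ⟨1, m, n, Or.inl rfl, ?_, ?_⟩
    · rw [hp']; push_cast; ring
    · rw [zeta_eq, zeta_eq, hp', H667R3.zeta_add_coe L hs (by rw [e]; exact h1), eta_comb]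
      push_cast
      ring

end Pool.Agent.Y153.HE
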