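import Pool.Agent.Y153.HE.WP2

/-! Y916/H-WP: elliptic logarithms as integrals. -/

set_option autoImplicit false

namespace Pool.Agent.Y153.HE

open Pool.Agent.Y916.Hy Filter Topology MeasureTheory
open scoped PeriodPair

theorem int_of {s : ℝ → ℂ} {g : ℝ → ℝ} {X : ℝ} (h : ∀ x ≥ X, HasDerivAt s ((g x : ℝ) : ℂ) x)
    (hg : ∀ x ≥ X, ContinuousAt g x) {x : ℝ} (hx : X ≤ x) :
    s x = s X + ((∫ v in X..x, g v : ℝ) : ℂ) := by
  have h1 : ∀ v ∈ Set.uIcc X x, HasDerivAt s ((g v : ℝ) : ℂ) v := by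
    intro v hv
    rw [Set.uIcc_of_le hx] at hv
    exact h v hv.1
  have hc : ContinuousOn (fun v => ((g v : ℝ) : ℂ)) (Set.uIcc X x) := by
    intro v hv
    rw [Set.uIcc_of_le hx] at hv
    exact (Complex.continuous_ofReal.continuousAt.comp (hg v hv.1)).continuousWithinAt
  have h2 := intervalIntegral.integral_eq_sub_of_hasDerivAt h1 hc.intervalIntegrable
  rw [intervalIntegral.integral_ofReal] at h2
  rw [h2]
  ring

theorem t_wp : S_wp := by
  intro L a b ha hb
  obtain ⟨s, hst, hev⟩ := exists_s L a b ha hb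
  obtain ⟨X, hX⟩ := eventually_atTop.1 hev
  have hstz : Tendsto s atTop (𝓝 0) := hst.mono_right nhdsWithin_le_nhds
  -- `s`
  have hcont : ∀ x ≥ X, ContinuousAt (fun v : ℝ => -(1 / √(4 * v ^ 3 - a * v - b))) x := by
    intro x hx
    have h1 := (hX x hx).1
    have h2 : √(4 * x ^ 3 - a * x - b) ≠ 0 := (Real.sqrt_pos.2 h1).ne'
    have h3 : ContinuousAt (fun v : ℝ => √(4 * v ^ 3 - a * v - b)) x := by fun_prop
    exact (continuousAt_const.div h3 h2).neg
  have hs1 : ∀ x ≥ X, s x = s X + ((∫ v in X..x, -(1 / √(4 * v ^ 3 - a * v - b)) : ℝ) : ℂ) :=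
    fun x hx => int_of (fun y hy => (hX y hy).2.2.2) hcont hx
  have him : ∀ x ≥ X, (s x).im = (s X).im := by
    intro x hx
    rw [hs1 x hx, Complex.add_im, Complex.ofReal_im, add_zero]
  have him0 : (s X).im = 0 := by
    have h1 : Tendsto (fun x => (s x).im) atTop (𝓝 (0 : ℂ).im) :=
      (Complex.continuous_im.tendsto _).comp hstz
    have h2 : Tendsto (fun x => (s x).im) atTop (𝓝 (s X).im) := by
      refine tendsto_const_nhds.congr' ?_
      filter_upwards [eventually_ge_atTop X] with x hx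
      exact (him x hx).symm
    exact tendsto_nhds_unique h2 h1
  -- `ζ (s x)`
  have hz : ∀ x ≥ X, HasDerivAt (fun x => zeta L (s x)) (((x / √(4 * x ^ 3 - a * x - b) : ℝ)) : ℂ) x := by
    intro x hx
    obtain ⟨h1, h2, h3, h4⟩ := hX x hx
    have h5 : HasDerivAt (zeta L) (-℘[L] (s x)) (s x) := H667R3.hasDerivAt_zeta L h2
    have h6 := HasDerivAt.comp x h5 h4
    refine h6.congr_deriv ?_
    rw [h3]
    push_cast
    ring
  have hcont2 : ∀ x ≥ X, ContinuousAt (fun v : ℝ => v / √(4 * v ^ 3 - a * v - b)) x := by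
    intro x hx
    have h1 := (hX x hx).1
    have h2 : √(4 * x ^ 3 - a * x - b) ≠ 0 := (Real.sqrt_pos.2 h1).ne'
    have h3 : ContinuousAt (fun v : ℝ => √(4 * v ^ 3 - a * v - b)) x := by fun_prop
    exact continuousAt_id.div h3 h2
  have hz1 : ∀ x ≥ X, zeta L (s x) = zeta L (s X) +
      ((∫ v in X..x, v / √(4 * v ^ 3 - a * v - b) : ℝ) : ℂ) :=
    fun x hx => int_of (s := fun x => zeta L (s x)) hz hcont2 hx
  have hzim0 : (zeta L (s X)).im = 0 := by
    have h1 : Tendsto (fun x => (zeta L (s x) - 1 / s x).im) atTop (𝓝 (0 : ℂ).im) :=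
      (Complex.continuous_im.tendsto _).comp ((zeta_lim L).comp hst)
    have h2 : Tendsto (fun x => (zeta L (s x) - 1 / s x).im) atTop (𝓝 (zeta L (s X)).im) := by
      refine tendsto_const_nhds.congr' ?_
      filter_upwards [eventually_ge_atTop X] with x hx
      have h3 : (s x).im = 0 := by rw [him x hx, him0]
      have h4 : (1 / s x).im = 0 := by
        rw [one_div, Complex.inv_im, h3]; simp
      rw [Complex.sub_im, h4, sub_zero, hz1 x hx, Complex.add_im, Complex.ofReal_im, add_zero]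
    exact tendsto_nhds_unique h2 h1
  refine ⟨X, (s X).re, (zeta L (s X)).re, fun x hx => (hX x hx).1, fun x hx => ⟨s x, (hX x hx).2.1,
    (hX x hx).2.2.1, ?_, ?_⟩⟩
  · have e : ((s X).re : ℂ) = s X := by
      apply Complex.ext
      · simp
      · simp [him0]
    rw [hs1 x hx, intervalIntegral.integral_neg]
    push_cast
    rw [e]
    ring
  · have e : ((zeta L (s X)).re : ℂ) = zeta L (s X) := by
      apply Complex.ext
      · simp
      · simp [hzim0]
    rw [hz1 x hx]
    push_cast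
    rw [e]

end Pool.Agent.Y153.HE
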