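import Pool.Agent.Y916.HStm
import Pool.Agent.H667R3.W4

/-! Y916/H-WP: behaviour of `℘`, `℘'`, `ζ` at `0`, local inverse of `℘^(-1/2)`. -/

set_option autoImplicit false

namespace Pool.Agent.Y153.HE

open Pool.Agent.Y916.Hy Filter Topology
open scoped PeriodPair

variable (L : PeriodPair)

theorem ev_notMem : ∀ᶠ w in 𝓝[≠] (0 : ℂ), w ∉ L.lattice := by
  have h := L.compl_lattice_sdiff_singleton_mem_nhds 0
  rw [eventually_nhdsWithin_iff]
  filter_upwards [h] with w hw hne hmem
  exact hw ⟨hmem, hne⟩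

theorem zeta_lim : Tendsto (fun w => zeta L w - 1 / w) (𝓝[≠] 0) (𝓝 0) := by
  have hd := H667R3.differentiable_Pi' L
  have h0 : deriv (H667R3.Pi' L) 0 = 0 := by
    have h1 : HasDerivAt (H667R3.Pi' L) (deriv (H667R3.Pi' L) 0) 0 := (hd 0).hasDerivAt
    have h2 : HasDerivAt (fun z => H667R3.Pi' L (-z)) (deriv (H667R3.Pi' L) 0 * -1) 0 := by
      have h3 : HasDerivAt (H667R3.Pi' L) (deriv (H667R3.Pi' L) 0) (-0) := by rwa [neg_zero]
      exact HasDerivAt.comp (0 : ℂ) h3 (hasDerivAt_neg 0)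
    have e : (fun z => H667R3.Pi' L (-z)) = H667R3.Pi' L := funext fun z => H667R3.Pi'_neg L z
    rw [e] at h2
    have h4 := h1.unique h2
    linear_combination (1 / 2 : ℂ) * h4
  have hc : ContinuousAt (fun w => deriv (H667R3.Pi' L) w / H667R3.Pi' L w) 0 := by
    apply ContinuousAt.div
    · exact (hd.contDiff (n := 1)).continuous_deriv le_rfl |>.continuousAt
    · exact (hd 0).continuousAt
    · rw [H667R3.Pi'_zero]; exact one_ne_zero
  have h1 : Tendsto (fun w => deriv (H667R3.Pi' L) w / H667R3.Pi' L w) (𝓝[≠] 0) (𝓝 0) := by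
    have := hc.tendsto
    rw [h0, zero_div] at this
    exact this.mono_left nhdsWithin_le_nhds
  refine h1.congr' ?_
  filter_upwards [ev_notMem L, self_mem_nhdsWithin] with w hw hne
  have hne' : w ≠ 0 := hne
  have e1 : zeta L w = logDeriv (H667R3.sigma L) w := (H667R3.logDeriv_sigma L hw).symm
  have e2 : H667R3.sigma L = fun z => z * H667R3.Pi' L z := by
    funext z; exact H667R3.sigma_eq_mul L z
  have e3 : logDeriv (fun z => z * H667R3.Pi' L z) w = logDeriv (fun z : ℂ => z) w +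
      logDeriv (H667R3.Pi' L) w :=
    logDeriv_mul w hne' (H667R3.prodE2_ne_zero L hw) differentiableAt_id (hd w)
  rw [e1, e2, e3]
  have e4 : logDeriv (fun z : ℂ => z) w = 1 / w := by
    rw [logDeriv_apply, deriv_id'']
  rw [e4, logDeriv_apply]
  ring

/-- the regular part of `℘` at `0` -/
noncomputable def P (w : ℂ) : ℂ := L.weierstrassPExcept 0 w

theorem P_cont : ContinuousAt (P L) 0 := by
  have h := L.differentiableOn_weierstrassPExcept 0
  exact ((h 0 (by simp)).differentiableAt (L.compl_lattice_sdiff_singleton_mem_nhds 0)).continuousAt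

theorem P_diff : ∀ᶠ w in 𝓝 (0 : ℂ), DifferentiableAt ℂ (P L) w := by
  have h := L.differentiableOn_weierstrassPExcept 0
  have h1 := L.compl_lattice_sdiff_singleton_mem_nhds 0
  obtain ⟨s, hs, hso, h0⟩ := mem_nhds_iff.1 h1
  filter_upwards [hso.mem_nhds h0] with w hw
  exact (h w (hs hw)).differentiableAt (mem_of_superset (hso.mem_nhds hw) hs)

theorem wp_eq (w : ℂ) : ℘[L] w = P L w + 1 / w ^ 2 := by
  have := L.weierstrassPExcept_add ⟨0, L.lattice.zero_mem⟩ w
  simp only [sub_zero] at this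
  rw [← this]
  unfold P
  simp

theorem wp'_lim : Tendsto (fun w => ℘'[L] w * w ^ 3) (𝓝[≠] 0) (𝓝 (-2)) := by
  have h := L.differentiableOn_derivWeierstrassPExcept 0
  have hc : ContinuousAt (L.derivWeierstrassPExcept 0) 0 :=
    ((h 0 (by simp)).differentiableAt (L.compl_lattice_sdiff_singleton_mem_nhds 0)).continuousAt
  have h1 : Tendsto (fun w => L.derivWeierstrassPExcept 0 w * w ^ 3 - 2) (𝓝[≠] 0) (𝓝 (-2)) := by
    have hc2 : ContinuousAt (fun w => L.derivWeierstrassPExcept 0 w * w ^ 3 - 2) 0 := by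
      fun_prop
    have := hc2.tendsto
    simp only [ne_eq, OfNat.ofNat_ne_zero, not_false_eq_true, zero_pow, mul_zero, zero_sub] at this
    exact this.mono_left nhdsWithin_le_nhds
  refine h1.congr' ?_
  filter_upwards [self_mem_nhdsWithin] with w hne
  have hne' : w ≠ 0 := hne
  have := L.derivWeierstrassPExcept_sub ⟨0, L.lattice.zero_mem⟩ w
  simp only [sub_zero] at this
  rw [← this]
  field_simp

/-- the local parameter `℘^(-1/2)` -/
noncomputable def Q (w : ℂ) : ℂ := w * (1 + w ^ 2 * P L w) ^ (-(1 / 2) : ℂ)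

theorem Q_zero : Q L 0 = 0 := by simp [Q]

theorem base_ev : ∀ᶠ w in 𝓝 (0 : ℂ), (1 + w ^ 2 * P L w) ∈ Complex.slitPlane := by
  have hc := P_cont L
  have h1 : ContinuousAt (fun w : ℂ => 1 + w ^ 2 * P L w) 0 := by fun_prop
  have h2 : (1 + (0 : ℂ) ^ 2 * P L 0) ∈ Complex.slitPlane := by simp
  exact h1.eventually (Complex.isOpen_slitPlane.mem_nhds h2)

theorem Q_sq {w : ℂ} (hw : w ≠ 0) (hb : (1 + w ^ 2 * P L w) ∈ Complex.slitPlane) :
    (Q L w ^ 2) * ℘[L] w = 1 := by
  have hb0 : (1 + w ^ 2 * P L w) ≠ 0 := Complex.slitPlane_ne_zero hb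
  have h1 : ((1 + w ^ 2 * P L w) ^ (-(1 / 2) : ℂ)) ^ 2 = (1 + w ^ 2 * P L w)⁻¹ := by
    rw [← Complex.cpow_nat_mul]
    have : ((2 : ℕ) : ℂ) * (-(1 / 2)) = -1 := by norm_num
    rw [this, Complex.cpow_neg_one]
  unfold Q
  rw [mul_pow, h1, wp_eq]
  field_simp
  ring

theorem Q_strict : HasStrictDerivAt (Q L) 1 0 := by
  have hana : AnalyticAt ℂ (Q L) 0 := by
    rw [Complex.analyticAt_iff_eventually_differentiableAt]
    filter_upwards [P_diff L, base_ev L] with w h1 h2
    unfold Q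
    apply DifferentiableAt.mul differentiableAt_fun_id
    have h3 : DifferentiableAt ℂ (fun w : ℂ => 1 + w ^ 2 * P L w) w := by fun_prop
    exact DifferentiableAt.cpow h3 (differentiableAt_const _) h2
  have h1 := hana.hasStrictDerivAt
  have h2 : deriv (Q L) 0 = 1 := by
    have hc : ContinuousAt (fun w : ℂ => (1 + w ^ 2 * P L w) ^ (-(1 / 2) : ℂ)) 0 := by
      have hP := P_cont L
      have h5 : ContinuousAt (fun w : ℂ => 1 + w ^ 2 * P L w) 0 := by fun_prop
      exact ContinuousAt.cpow h5 continuousAt_const (base_ev L).self_of_nhds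
    have h3 : HasDerivAt (Q L) 1 0 := by
      rw [hasDerivAt_iff_tendsto_slope_zero]
      have h4 := hc.tendsto.mono_left (nhdsWithin_le_nhds (s := {(0 : ℂ)}ᶜ))
      simp only [ne_eq, OfNat.ofNat_ne_zero, not_false_eq_true, zero_pow, zero_mul, add_zero,
        Complex.one_cpow] at h4
      refine h4.congr' ?_
      filter_upwards [self_mem_nhdsWithin] with t ht
      have ht' : t ≠ 0 := ht
      rw [Q_zero, sub_zero, zero_add, smul_eq_mul]
      unfold Q
      rw [← mul_assoc, inv_mul_cancel₀ ht', one_mul]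
    exact h3.deriv
  rwa [h2] at h1

end Pool.Agent.Y153.HE
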