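import Pool.Agent.Y153.HE.WP1

/-! Y916/H-WP: the elliptic logarithm near infinity. -/

set_option autoImplicit false

namespace Pool.Agent.Y153.HE

open Pool.Agent.Y916.Hy Filter Topology
open scoped PeriodPair

variable (L : PeriodPair)

theorem exists_inv : ∃ (G : ℂ → ℂ) (δ : ℝ), 0 < δ ∧ Tendsto G (𝓝 0) (𝓝 0) ∧
    (∀ u, ‖u‖ < δ → ContinuousAt G u) ∧
    (∀ u, ‖u‖ < δ → u ≠ 0 → G u ∉ L.lattice ∧ G u ≠ 0 ∧ Q L (G u) = u ∧
      (1 + (G u) ^ 2 * P L (G u)) ∈ Complex.slitPlane) := by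
  have hs := (Q_strict L).hasStrictFDerivAt_equiv one_ne_zero
  set Φ := hs.toOpenPartialHomeomorph (Q L) with hΦ
  have hcoe : (Φ : ℂ → ℂ) = Q L := hs.toOpenPartialHomeomorph_coe
  have h0s : (0 : ℂ) ∈ Φ.source := hs.mem_toOpenPartialHomeomorph_source
  have h0t : (0 : ℂ) ∈ Φ.target := by
    have := Φ.map_source h0s
    rw [hcoe, Q_zero] at this
    exact this
  have hG0 : Φ.symm 0 = 0 := by
    have := Φ.left_inv h0s
    rw [hcoe, Q_zero] at this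
    exact this
  have hGc : ContinuousAt Φ.symm 0 := Φ.continuousAt_symm h0t
  have hGt : Tendsto Φ.symm (𝓝 0) (𝓝 0) := by
    have := hGc.tendsto
    rwa [hG0] at this
  have hlat : ∀ᶠ w in 𝓝 (0 : ℂ), w ∈ L.lattice → w = 0 := by
    filter_upwards [L.compl_lattice_sdiff_singleton_mem_nhds 0] with w hw hmem
    by_contra hne
    exact hw ⟨hmem, hne⟩
  have hev : ∀ᶠ u in 𝓝 (0 : ℂ), u ∈ Φ.target ∧ (Φ.symm u ∈ L.lattice → Φ.symm u = 0) ∧
      (1 + (Φ.symm u) ^ 2 * P L (Φ.symm u)) ∈ Complex.slitPlane :=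
    Filter.Eventually.and (Φ.open_target.mem_nhds h0t)
      ((hGt.eventually hlat).and (hGt.eventually (base_ev L)))
  obtain ⟨δ, hδ, h⟩ := Metric.eventually_nhds_iff.1 hev
  refine ⟨Φ.symm, δ, hδ, hGt, fun u hu => ?_, fun u hu hu0 => ?_⟩
  · exact Φ.continuousAt_symm (h (by simpa using hu)).1
  · obtain ⟨h1, h2, h3⟩ := h (y := u) (by simpa using hu)
    have hQ : Q L (Φ.symm u) = u := by
      have := Φ.right_inv h1
      rwa [hcoe] at this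
    have hne : Φ.symm u ≠ 0 := by
      intro h0
      rw [h0, Q_zero] at hQ
      exact hu0 hQ.symm
    exact ⟨fun hm => hne (h2 hm), hne, hQ, h3⟩

theorem cpow_sq {z : ℂ} : (z ^ (-(1 / 2) : ℂ)) ^ 2 = z⁻¹ := by
  rw [← Complex.cpow_nat_mul]
  have : ((2 : ℕ) : ℂ) * (-(1 / 2)) = -1 := by norm_num
  rw [this, Complex.cpow_neg_one]

theorem norm_u {x : ℝ} (hx : 0 < x) : ‖((x : ℂ)) ^ (-(1 / 2) : ℂ)‖ = x ^ (-(1 / 2) : ℝ) := by
  rw [Complex.norm_cpow_eq_rpow_re_of_pos hx]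
  norm_num

theorem cu {x : ℝ} (hx : 0 < x) :
    ((x : ℂ)) ^ (-(1 / 2) : ℂ) = (((√x)⁻¹ : ℝ) : ℂ) := by
  have h : (-(1 / 2) : ℂ) = ((-(1 / 2) : ℝ) : ℂ) := by push_cast; ring
  rw [h, ← Complex.ofReal_cpow hx.le, Real.rpow_neg hx.le, ← Real.sqrt_eq_rpow]

theorem poly_pos (a b : ℝ) : ∀ᶠ x : ℝ in atTop, 0 < 4 * x ^ 3 - a * x - b := by
  filter_upwards [eventually_ge_atTop (1 + |a| + |b|)] with x hx
  have h1 := abs_nonneg a
  have h2 := abs_nonneg b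
  have h3 := le_abs_self a
  have h4 := le_abs_self b
  have hx1 : 1 ≤ x := by linarith
  have h5 : a * x ≤ x * x * x := by
    have : a ≤ x * x := by nlinarith
    nlinarith
  have h6 : b ≤ x * x * x := by nlinarith [mul_pos (by linarith : (0:ℝ) < x) (by linarith : (0:ℝ) < x)]
  nlinarith [mul_pos (mul_pos (by linarith : (0:ℝ) < x) (by linarith : (0:ℝ) < x)) (by linarith : (0:ℝ) < x)]

theorem exists_s (a b : ℝ) (ha : L.g₂ = a) (hb : L.g₃ = b) : ∃ (s : ℝ → ℂ),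
    Tendsto s atTop (𝓝[≠] 0) ∧
    ∀ᶠ x : ℝ in atTop, 0 < 4 * x ^ 3 - a * x - b ∧ s x ∉ L.lattice ∧ ℘[L] (s x) = x ∧
      HasDerivAt s (((-(1 / √(4 * x ^ 3 - a * x - b)) : ℝ)) : ℂ) x := by
  obtain ⟨G, δ, hδ, hGt, hGc, hG⟩ := exists_inv L
  set e : ℂ → ℂ := fun ζ => G (ζ ^ (-(1 / 2) : ℂ)) with he
  set s : ℝ → ℂ := fun x => e (x : ℂ) with hs
  have hut : Tendsto (fun x : ℝ => ((x : ℂ)) ^ (-(1 / 2) : ℂ)) atTop (𝓝 0) := by
    rw [tendsto_zero_iff_norm_tendsto_zero]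
    refine (tendsto_rpow_neg_atTop (by norm_num : (0 : ℝ) < 1 / 2)).congr' ?_
    filter_upwards [eventually_gt_atTop (0 : ℝ)] with x hx
    rw [norm_u hx]
  have hst : Tendsto s atTop (𝓝 0) := hGt.comp hut
  have hsmall : ∀ᶠ x : ℝ in atTop, ‖((x : ℂ)) ^ (-(1 / 2) : ℂ)‖ < δ := by
    have := hut.eventually (Metric.ball_mem_nhds (0 : ℂ) hδ)
    filter_upwards [this] with x hx
    simpa using hx
  have hne : ∀ x : ℝ, 0 < x → ((x : ℂ)) ^ (-(1 / 2) : ℂ) ≠ 0 := by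
    intro x hx
    rw [Ne, Complex.cpow_eq_zero_iff]
    intro h
    exact hx.ne' (by exact_mod_cast h.1)
  -- basic properties
  have hb1 : ∀ᶠ x : ℝ in atTop, 0 < x ∧ s x ∉ L.lattice ∧ s x ≠ 0 ∧
      Q L (s x) = ((x : ℂ)) ^ (-(1 / 2) : ℂ) ∧ ℘[L] (s x) = x ∧ ContinuousAt e (x : ℂ) ∧
      ∀ᶠ ζ in 𝓝 (x : ℂ), ℘[L] (e ζ) = ζ := by
    filter_upwards [hsmall, eventually_gt_atTop (0 : ℝ)] with x hx1 hx
    have hslit : (x : ℂ) ∈ Complex.slitPlane := by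
      rw [Complex.mem_slitPlane_iff]; left; simpa using hx
    obtain ⟨h1, h2, h3, h4⟩ := hG _ hx1 (hne x hx)
    have hcc : ContinuousAt (fun ζ : ℂ => ζ ^ (-(1 / 2) : ℂ)) (x : ℂ) :=
      continuousAt_cpow_const hslit
    have hce : ContinuousAt e (x : ℂ) := by
      have : ContinuousAt G ((x : ℂ) ^ (-(1 / 2) : ℂ)) := hGc _ hx1
      exact ContinuousAt.comp (g := G) (f := fun ζ : ℂ => ζ ^ (-(1 / 2) : ℂ)) this hcc
    have hev : ∀ᶠ ζ in 𝓝 (x : ℂ), ℘[L] (e ζ) = ζ := by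
      have hx1' : ∀ᶠ ζ in 𝓝 (x : ℂ), ‖ζ ^ (-(1 / 2) : ℂ)‖ < δ :=
        hcc.norm.eventually_lt continuousAt_const hx1
      have hz0 : ∀ᶠ ζ in 𝓝 (x : ℂ), ζ ≠ 0 := by
        apply eventually_ne_nhds
        exact_mod_cast hx.ne'
      filter_upwards [hx1', hz0] with ζ hz1 hz2
      have hne' : ζ ^ (-(1 / 2) : ℂ) ≠ 0 := by
        rw [Ne, Complex.cpow_eq_zero_iff]
        intro h
        exact hz2 h.1
      obtain ⟨k1, k2, k3, k4⟩ := hG _ hz1 hne'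
      have k5 := Q_sq L k2 k4
      rw [k3, cpow_sq] at k5
      have : ζ * (ζ⁻¹ * ℘[L] (e ζ)) = ζ * 1 := by rw [← k5]
      rw [← mul_assoc, mul_inv_cancel₀ hz2, one_mul, mul_one] at this
      exact this
    exact ⟨hx, h1, h2, h3, hev.self_of_nhds, hce, hev⟩
  have hstn : Tendsto s atTop (𝓝[≠] 0) := by
    rw [tendsto_nhdsWithin_iff]
    refine ⟨hst, ?_⟩
    filter_upwards [hb1] with x hx
    exact hx.2.2.1
  -- the sign
  have hc1 : Tendsto (fun x : ℝ => s x * (√x : ℝ)) atTop (𝓝 1) := by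
    have hk : Tendsto (fun w : ℂ => (1 + w ^ 2 * P L w) ^ (-(1 / 2) : ℂ)) (𝓝 0) (𝓝 1) := by
      have hP := P_cont L
      have h5 : ContinuousAt (fun w : ℂ => 1 + w ^ 2 * P L w) 0 := by fun_prop
      have h6 := (ContinuousAt.cpow h5 (continuousAt_const (y := (-(1 / 2) : ℂ)))
        (base_ev L).self_of_nhds).tendsto
      simpa using h6
    have h7 := (hk.comp hst).inv₀ one_ne_zero
    rw [inv_one] at h7
    refine h7.congr' ?_
    filter_upwards [hb1] with x hxx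
    obtain ⟨hx, h1, h2, h3, h4, h5', h6'⟩ := hxx
    have h8 : s x * (1 + (s x) ^ 2 * P L (s x)) ^ (-(1 / 2) : ℂ) = (((√x)⁻¹ : ℝ) : ℂ) := by
      rw [← cu hx, ← h3]; rfl
    have hsx : (√x : ℝ) ≠ 0 := (Real.sqrt_pos.2 hx).ne'
    have h9 : (s x * (√x : ℝ)) * (1 + (s x) ^ 2 * P L (s x)) ^ (-(1 / 2) : ℂ) = 1 := by
      calc (s x * (√x : ℝ)) * (1 + (s x) ^ 2 * P L (s x)) ^ (-(1 / 2) : ℂ) =
          (s x * (1 + (s x) ^ 2 * P L (s x)) ^ (-(1 / 2) : ℂ)) * (√x : ℝ) := by ring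
        _ = 1 := by
          rw [h8, ← Complex.ofReal_mul, inv_mul_cancel₀ hsx, Complex.ofReal_one]
    exact (eq_inv_of_mul_eq_one_left h9).symm
  have hc2 : Tendsto (fun x : ℝ => √(4 - a / x ^ 2 - b / x ^ 3)) atTop (𝓝 2) := by
    have h1 : Tendsto (fun x : ℝ => 4 - a / x ^ 2 - b / x ^ 3) atTop (𝓝 (4 - 0 - 0)) := by
      refine Tendsto.sub (Tendsto.sub tendsto_const_nhds ?_) ?_
      · exact Tendsto.div_atTop tendsto_const_nhds (tendsto_pow_atTop (by norm_num))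
      · exact Tendsto.div_atTop tendsto_const_nhds (tendsto_pow_atTop (by norm_num))
    have h2 := (Real.continuous_sqrt.tendsto _).comp h1
    have h3 : √(4 - 0 - 0 : ℝ) = 2 := by
      rw [show (4 - 0 - 0 : ℝ) = 2 ^ 2 by norm_num, Real.sqrt_sq (by norm_num)]
    rw [h3] at h2
    exact h2
  have hF2 : Tendsto (fun x : ℝ => (√(4 * x ^ 3 - a * x - b) : ℂ) * (s x) ^ 3) atTop (𝓝 2) := by
    have h1 : Tendsto (fun x : ℝ => (s x * (√x : ℝ)) ^ 3 * ((√(4 - a / x ^ 2 - b / x ^ 3) : ℝ) : ℂ))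
        atTop (𝓝 (1 ^ 3 * ((2 : ℝ) : ℂ))) :=
      (hc1.pow 3).mul ((Complex.continuous_ofReal.tendsto _).comp hc2)
    have e1 : (1 : ℂ) ^ 3 * ((2 : ℝ) : ℂ) = 2 := by norm_num
    rw [e1] at h1
    refine h1.congr' ?_
    filter_upwards [eventually_gt_atTop (0 : ℝ)] with x hx
    have h2 : √(4 * x ^ 3 - a * x - b) = (√x) ^ 3 * √(4 - a / x ^ 2 - b / x ^ 3) := by
      have h3 : 4 * x ^ 3 - a * x - b = x ^ 3 * (4 - a / x ^ 2 - b / x ^ 3) := by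
        field_simp
      have h4 : √(x ^ 3) = (√x) ^ 3 := by
        have h5 : x ^ 3 = ((√x) ^ 3) ^ 2 := by
          rw [← pow_mul, mul_comm, pow_mul, Real.sq_sqrt hx.le]
        rw [h5, Real.sqrt_sq (by positivity)]
      rw [h3, Real.sqrt_mul (by positivity), h4]
    rw [h2]
    push_cast
    ring
  have hF1 : Tendsto (fun x : ℝ => ℘'[L] (s x) * (s x) ^ 3) atTop (𝓝 (-2)) :=
    (wp'_lim L).comp hstn
  have hsep : ∀ᶠ x : ℝ in atTop, ℘'[L] (s x) * (s x) ^ 3 ≠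
      (√(4 * x ^ 3 - a * x - b) : ℂ) * (s x) ^ 3 := by
    have h1 := (hF1.sub hF2).eventually_ne (show (-2 : ℂ) - 2 ≠ 0 by norm_num)
    filter_upwards [h1] with x hx h2
    exact hx (sub_eq_zero.2 h2)
  refine ⟨s, hstn, ?_⟩
  filter_upwards [hb1, hsep, poly_pos a b] with x ⟨hx, h1, h2, h3, h4, h5, h6⟩ h7 h8
  refine ⟨h8, h1, h4, ?_⟩
  set R := √(4 * x ^ 3 - a * x - b) with hR
  have hR0 : 0 < R := Real.sqrt_pos.2 h8
  have hsq := L.derivWeierstrassP_sq (s x) h1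
  rw [h4, ha, hb] at hsq
  have hR2 : ((R : ℂ)) ^ 2 = 4 * (x : ℂ) ^ 3 - a * x - b := by
    rw [← Complex.ofReal_pow, hR, Real.sq_sqrt h8.le]
    push_cast
    ring
  have hfac : (℘'[L] (s x) - R) * (℘'[L] (s x) + R) = 0 := by
    linear_combination hsq - hR2
  have hval : ℘'[L] (s x) = -R := by
    rcases mul_eq_zero.1 hfac with h | h
    · exfalso
      apply h7
      rw [sub_eq_zero.1 h]
    · linear_combination h
  have hRc : (R : ℂ) ≠ 0 := by exact_mod_cast hR0.ne'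
  have hne0 : ℘'[L] (s x) ≠ 0 := by
    rw [hval]; exact neg_ne_zero.2 hRc
  have hder : HasDerivAt e (℘'[L] (s x))⁻¹ (x : ℂ) :=
    HasDerivAt.of_local_left_inverse h5 (H667R3.hasDerivAt_weierstrassP L h1) hne0 h6
  have hder2 := hder.comp_ofReal
  rw [hval] at hder2
  refine hder2.congr_deriv ?_
  push_cast
  rw [inv_neg, one_div]

end Pool.Agent.Y153.HE
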